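import Mathlib

/-!
# MP_3240be_co: the closure of the TW systems (row TW2 of Theorem CORE)

`Gam R M` is helper39's system `Γ_M(R)` (finding 4733 (1)): its vertices are the pairs `(v, f)` of a
vertex `v` of `R` and a function `f` from the other vertices of `R` to `Fin M`; `(v, f)` and `(w, g)`
are adjacent if `v w` is an edge of `R` and `f = g` outside `v`, `w`.

* `Folds L R`: there is a homomorphism `φ : L → R` such that any two distinct vertices `a, b` with
  `φ a = φ b` are separated in `L - φ⁻¹(u)` for some vertex `u ≠ φ a` of `R`.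
* `folds_of_gam`, `gam_of_folds`: `L` is a subgraph of some `Gam R M` iff `Folds L R`.
* `Rig`: rigid sets of vertices, `rigid_folds`: a rigid graph folds into `R` only if it is a
  subgraph of `R`.
-/

set_option autoImplicit false

namespace MP3240TW

universe u v

/-- Vertices of `Γ_M(R)`. -/
abbrev GV (W : Type v) (M : ℕ) : Type v := Σ w : W, ({u : W // u ≠ w} → Fin M)

/-- The TW system `Γ_M(R)`. -/
def Gam {W : Type v} (R : SimpleGraph W) (M : ℕ) : SimpleGraph (GV W M) where
  Adj x y := R.Adj x.1 y.1 ∧ ∀ (u : W) (hx : u ≠ x.1) (hy : u ≠ y.1), x.2 ⟨u, hx⟩ = y.2 ⟨u, hy⟩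
  symm := ⟨fun _ _ h => ⟨h.1.symm, fun u hx hy => (h.2 u hy hx).symm⟩⟩
  loopless := ⟨fun _ h => R.loopless.irrefl _ h.1⟩

theorem gv_ext {W : Type v} {M : ℕ} {x y : GV W M} (h : x.1 = y.1)
    (h2 : ∀ (u : W) (hx : u ≠ x.1) (hy : u ≠ y.1), x.2 ⟨u, hx⟩ = y.2 ⟨u, hy⟩) : x = y := by
  obtain ⟨x1, x2⟩ := x
  obtain ⟨y1, y2⟩ := y
  change x1 = y1 at h
  subst h
  have : x2 = y2 := by
    funext u
    exact h2 u.1 u.2 u.2
  rw [this]

/-- The vertex with role `w` in the body `a`. -/
def body {W : Type v} {M : ℕ} (a : W → Fin M) (w : W) : GV W M := ⟨w, fun u => a u.1⟩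

/-- `a` and `b` are joined in `L - φ⁻¹(u)`. -/
def Lnk {V : Type u} {W : Type v} (L : SimpleGraph V) (φ : V → W) (u : W) (a b : V) : Prop :=
  Relation.ReflTransGen (fun c d => L.Adj c d ∧ φ c ≠ u ∧ φ d ≠ u) a b

/-- `φ` is a folding of `L` into `R`. -/
def Fold {V : Type u} {W : Type v} (L : SimpleGraph V) (R : SimpleGraph W) (φ : V → W) : Prop :=
  (∀ a b, L.Adj a b → R.Adj (φ a) (φ b)) ∧
    ∀ a b, a ≠ b → φ a = φ b → ∃ u, u ≠ φ a ∧ ¬ Lnk L φ u a b

/-- `L` folds into `R`. -/
def Folds {V : Type u} {W : Type v} (L : SimpleGraph V) (R : SimpleGraph W) : Prop :=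
  ∃ φ : V → W, Fold L R φ

/-- `L` is a subgraph of `R`. -/
def Sub {V : Type u} {W : Type v} (L : SimpleGraph V) (R : SimpleGraph W) : Prop :=
  ∃ F : V → W, Function.Injective F ∧ ∀ a b, L.Adj a b → R.Adj (F a) (F b)

section lnk

variable {V : Type u} {W : Type v} {L : SimpleGraph V} {φ : V → W} {u : W}

theorem Lnk.refl (a : V) : Lnk L φ u a a := Relation.ReflTransGen.refl

theorem Lnk.trans {a b c : V} (h : Lnk L φ u a b) (h' : Lnk L φ u b c) : Lnk L φ u a c :=
  Relation.ReflTransGen.trans h h'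

theorem Lnk.symm {a b : V} (h : Lnk L φ u a b) : Lnk L φ u b a := by
  induction h with
  | refl => exact Lnk.refl a
  | tail _ h2 ih => exact Relation.ReflTransGen.head ⟨h2.1.symm, h2.2.2, h2.2.1⟩ ih

theorem Lnk.edge {a b : V} (h : L.Adj a b) (ha : φ a ≠ u) (hb : φ b ≠ u) : Lnk L φ u a b :=
  Relation.ReflTransGen.single ⟨h, ha, hb⟩

end lnk

/-- A subgraph of `Γ_M(R)` folds into `R`. -/
theorem folds_of_gam {V : Type u} {W : Type v} {L : SimpleGraph V} {R : SimpleGraph W} {M : ℕ}
    (h : Sub L (Gam R M)) : Folds L R := by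
  classical
  obtain ⟨F, hF, hA⟩ := h
  refine ⟨fun a => (F a).1, fun a b hab => (hA a b hab).1, ?_⟩
  intro a b hab he
  by_contra hcon
  push Not at hcon
  -- the coordinates agree
  have key : ∀ u : W, ∀ (x y : V), Lnk L (fun a => (F a).1) u x y →
      ∀ (hx : u ≠ (F x).1) (hy : u ≠ (F y).1), (F x).2 ⟨u, hx⟩ = (F y).2 ⟨u, hy⟩ := by
    intro u x y hl
    induction hl with
    | refl => intro hx hy; rfl
    | tail _ h2 ih =>
      intro hx hy
      rw [ih hx (Ne.symm h2.2.1)]
      exact (hA _ _ h2.1).2 u (Ne.symm h2.2.1) hy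
  apply hab
  apply hF
  exact gv_ext he fun u hx hy => key u a b (hcon u hx) hx hy

/-- A graph that folds into `R` is a subgraph of `Γ_M(R)` for some `M`. -/
theorem gam_of_folds {V : Type u} {W : Type v} [Fintype V] {L : SimpleGraph V} {R : SimpleGraph W}
    (h : Folds L R) : Sub L (Gam R (Fintype.card V)) := by
  classical
  obtain ⟨φ, hφ, hs⟩ := h
  -- choose a representative of every component
  let st : W → Setoid V := fun u => ⟨Lnk L φ u, ⟨fun a => Lnk.refl a, fun h => h.symm,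
    fun h h' => h.trans h'⟩⟩
  let e : V ≃ Fin (Fintype.card V) := Fintype.equivFin V
  let c : W → V → Fin (Fintype.card V) := fun u a => e (Quotient.out (Quotient.mk (st u) a))
  have hc : ∀ u a b, c u a = c u b ↔ Lnk L φ u a b := by
    intro u a b
    constructor
    · intro h
      have h1 : Quotient.out (Quotient.mk (st u) a) = Quotient.out (Quotient.mk (st u) b) :=
        e.injective h
      have h2 : Quotient.mk (st u) a = Quotient.mk (st u) b := by
        rw [← Quotient.out_eq (Quotient.mk (st u) a), ← Quotient.out_eq (Quotient.mk (st u) b), h1]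
      exact Quotient.exact h2
    · intro h
      have h2 : Quotient.mk (st u) a = Quotient.mk (st u) b := Quotient.sound h
      show e _ = e _
      rw [h2]
  refine ⟨fun a => ⟨φ a, fun u => c u.1 a⟩, ?_, ?_⟩
  · intro a b hab
    by_contra hne
    have h1 : φ a = φ b := congrArg Sigma.fst hab
    obtain ⟨u, hu, hn⟩ := hs a b hne h1
    apply hn
    rw [← hc]
    have h2 := hab
    have key : ∀ (x y : GV W (Fintype.card V)), x = y → ∀ (hx : u ≠ x.1) (hy : u ≠ y.1),
        x.2 ⟨u, hx⟩ = y.2 ⟨u, hy⟩ := by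
      rintro x _ rfl hx hy
      rfl
    exact key _ _ h2 hu (fun h => hu (h.trans h1.symm))
  · intro a b hab
    refine ⟨hφ a b hab, fun u hx hy => ?_⟩
    show c u a = c u b
    rw [hc]
    exact Lnk.edge hab (Ne.symm hx) (Ne.symm hy)

/-- `A` lies in one body: for every role `u` the vertices of `A` with another role are joined in
`L - φ⁻¹(u)`. -/
def Bdy {V : Type u} {W : Type v} (L : SimpleGraph V) (φ : V → W) (A : Set V) : Prop :=
  ∀ (u : W) (a b : V), a ∈ A → b ∈ A → φ a ≠ u → φ b ≠ u → Lnk L φ u a b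

/-- Rigid sets of vertices of `L`, starting from the sets in `P`. -/
inductive Rig {V : Type u} (L : SimpleGraph V) (P : Set V → Prop) : Set V → Prop
  | base (A : Set V) : P A → Rig L P A
  | two (A B : Set V) (x y : V) : Rig L P A → Rig L P B → x ≠ y → x ∈ A → x ∈ B → y ∈ A → y ∈ B →
      Rig L P (A ∪ B)
  | one (A B : Set V) (x s t : V) : Rig L P A → Rig L P B → x ∈ A → x ∈ B → s ∈ A → t ∈ B →
      s ≠ x → t ≠ x → L.Adj s t → Rig L P (A ∪ B)
  | three (A B : Set V) (s t : Fin 3 → V) : Rig L P A → Rig L P B → Function.Injective s →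
      Function.Injective t → (∀ i, s i ∈ A) → (∀ i, t i ∈ B) → (∀ i, L.Adj (s i) (t i)) →
      Rig L P (A ∪ B)
  | ear (A : Set V) (w x y : V) : Rig L P A → x ∈ A → y ∈ A → x ≠ y → L.Adj w x → L.Adj w y →
      Rig L P (insert w A)

section rig

variable {V : Type u} {W : Type v} {L : SimpleGraph V} {R : SimpleGraph W} {φ : V → W}

theorem Bdy.inj (hF : Fold L R φ) {A : Set V} (h : Bdy L φ A) {a b : V} (ha : a ∈ A) (hb : b ∈ A)
    (he : φ a = φ b) : a = b := by
  by_contra hne
  obtain ⟨u, hu, hn⟩ := hF.2 a b hne he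
  exact hn (h u a b ha hb (Ne.symm hu) (he ▸ Ne.symm hu))

/-- If for every role `u` the sets `A` and `B` are linked outside `φ⁻¹(u)` then `A ∪ B` lies in
one body. -/
theorem Bdy.union {A B : Set V} (hA : Bdy L φ A) (hB : Bdy L φ B)
    (h : ∀ u : W, ∃ s ∈ A, ∃ t ∈ B, φ s ≠ u ∧ φ t ≠ u ∧ Lnk L φ u s t) : Bdy L φ (A ∪ B) := by
  intro u a b ha hb hua hub
  obtain ⟨s, hs, t, ht, hus, hut, hst⟩ := h u
  rcases ha with ha | ha <;> rcases hb with hb | hb
  · exact hA u a b ha hb hua hub
  · exact ((hA u a s ha hs hua hus).trans hst).trans (hB u t b ht hb hut hub)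
  · exact ((hB u a t ha ht hua hut).trans hst.symm).trans (hA u s b hs hb hus hub)
  · exact hB u a b ha hb hua hub

theorem Rig.bdy (hF : Fold L R φ) {P : Set V → Prop} (hP : ∀ A, P A → Bdy L φ A) {A : Set V}
    (h : Rig L P A) : Bdy L φ A := by
  classical
  induction h with
  | base A h => exact hP A h
  | two A B x y _ _ hxy hxA hxB hyA hyB ihA ihB =>
    apply ihA.union ihB
    intro u
    by_cases hx : φ x = u
    · have hy : φ y ≠ u := fun hy => hxy (ihA.inj hF hxA hyA (hx.trans hy.symm))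
      exact ⟨y, hyA, y, hyB, hy, hy, Lnk.refl y⟩
    · exact ⟨x, hxA, x, hxB, hx, hx, Lnk.refl x⟩
  | one A B x s t _ _ hxA hxB hsA htB hsx htx hst ihA ihB =>
    apply ihA.union ihB
    intro u
    by_cases hx : φ x = u
    · have hs : φ s ≠ u := fun hy => hsx (ihA.inj hF hsA hxA (hy.trans hx.symm))
      have ht : φ t ≠ u := fun hy => htx (ihB.inj hF htB hxB (hy.trans hx.symm))
      exact ⟨s, hsA, t, htB, hs, ht, Lnk.edge hst hs ht⟩
    · exact ⟨x, hxA, x, hxB, hx, hx, Lnk.refl x⟩
  | three A B s t _ _ hs ht hsA htB hst ihA ihB =>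
    apply ihA.union ihB
    intro u
    by_contra hcon
    push Not at hcon
    have h1 : ∀ i, φ (s i) = u ∨ φ (t i) = u := by
      intro i
      by_contra h2
      push Not at h2
      exact hcon (s i) (hsA i) (t i) (htB i) h2.1 h2.2 (Lnk.edge (hst i) h2.1 h2.2)
    have hs1 : ∀ i j, φ (s i) = u → φ (s j) = u → i = j := fun i j hi hj =>
      hs (ihA.inj hF (hsA i) (hsA j) (hi.trans hj.symm))
    have ht1 : ∀ i j, φ (t i) = u → φ (t j) = u → i = j := fun i j hi hj =>
      ht (ihB.inj hF (htB i) (htB j) (hi.trans hj.symm))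
    rcases h1 0 with h0 | h0
    · have h10 : φ (t 1) = u := (h1 1).resolve_left fun h => absurd (hs1 0 1 h0 h) (by decide)
      have h20 : φ (t 2) = u := (h1 2).resolve_left fun h => absurd (hs1 0 2 h0 h) (by decide)
      exact absurd (ht1 1 2 h10 h20) (by decide)
    · have h10 : φ (s 1) = u := (h1 1).resolve_right fun h => absurd (ht1 0 1 h0 h) (by decide)
      have h20 : φ (s 2) = u := (h1 2).resolve_right fun h => absurd (ht1 0 2 h0 h) (by decide)
      exact absurd (hs1 1 2 h10 h20) (by decide)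
  | ear A w x y _ hxA hyA hxy hwx hwy ihA =>
    have key : ∀ u a, a ∈ A → φ a ≠ u → φ w ≠ u → Lnk L φ u a w := by
      intro u a ha hua huw
      by_cases hx : φ x = u
      · have hy : φ y ≠ u := fun hy => hxy (ihA.inj hF hxA hyA (hx.trans hy.symm))
        exact (ihA u a y ha hyA hua hy).trans (Lnk.edge hwy.symm hy huw)
      · exact (ihA u a x ha hxA hua hx).trans (Lnk.edge hwx.symm hx huw)
    intro u a b ha hb hua hub
    rcases Set.mem_insert_iff.1 ha with ha | ha <;> rcases Set.mem_insert_iff.1 hb with hb | hb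
    · rw [ha, hb]
      exact Lnk.refl _
    · rw [ha] at hua ⊢
      exact (key u b hb hub hua).symm
    · rw [hb] at hub ⊢
      exact key u a ha hua hub
    · exact ihA u a b ha hb hua hub

/-- A set of `m` vertices that is not `r`-colourable. -/
def BadM (L : SimpleGraph V) (r m : ℕ) (A : Set V) : Prop :=
  ∃ S : Finset V, (S : Set V) = A ∧ S.card = m ∧ ¬ ∃ κ : V → Fin r, ∀ a ∈ S, ∀ b ∈ S,
    L.Adj a b → κ a ≠ κ b

/-- Every set of fewer than `m` vertices of `R` is `r`-colourable. -/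
def Nst (R : SimpleGraph W) (r m : ℕ) : Prop :=
  ∀ S : Finset W, S.card < m → ∃ κ : W → Fin r, ∀ a ∈ S, ∀ b ∈ S, R.Adj a b → κ a ≠ κ b

/-- A bad `m`-set lies in one body. -/
theorem bdy_bad (hF : Fold L R φ) {r m : ℕ} (hR : Nst R r m) {A : Set V} (hA : BadM L r m A) :
    Bdy L φ A := by
  classical
  obtain ⟨S, rfl, hcard, hbad⟩ := hA
  -- every set of `L` whose image has fewer than `m` elements is colourable
  have hcol : ∀ T : Finset V, (T.image φ).card < m → ∃ κ : V → Fin r, ∀ a ∈ T, ∀ b ∈ T,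
      L.Adj a b → κ a ≠ κ b := by
    intro T hT
    obtain ⟨κ, hκ⟩ := hR _ hT
    exact ⟨fun a => κ (φ a), fun a ha b hb hab => hκ _ (Finset.mem_image_of_mem _ ha) _
      (Finset.mem_image_of_mem _ hb) (hF.1 a b hab)⟩
  have hinj : ∀ a ∈ S, ∀ b ∈ S, φ a = φ b → a = b := by
    have h1 : m ≤ (S.image φ).card := by
      by_contra h
      exact hbad (hcol S (not_le.1 h))
    have h2 : (S.image φ).card = S.card := le_antisymm Finset.card_image_le (hcard ▸ h1)
    have h3 := Finset.card_image_iff.1 h2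
    intro a ha b hb hab
    exact h3 ha hb hab
  intro u a b ha hb hua hub
  by_contra hn
  have haS : a ∈ S := ha
  have hbS : b ∈ S := hb
  -- the two sides
  have hC : ∃ κ : V → Fin r, ∀ c ∈ S.erase b, ∀ d ∈ S.erase b, L.Adj c d → κ c ≠ κ d := by
    apply hcol
    calc ((S.erase b).image φ).card ≤ (S.erase b).card := Finset.card_image_le
      _ < S.card := Finset.card_erase_lt_of_mem hbS
      _ = m := hcard
  have hD : ∃ κ : V → Fin r, ∀ c ∈ S.erase a, ∀ d ∈ S.erase a, L.Adj c d → κ c ≠ κ d := by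
    apply hcol
    calc ((S.erase a).image φ).card ≤ (S.erase a).card := Finset.card_image_le
      _ < S.card := Finset.card_erase_lt_of_mem haS
      _ = m := hcard
  obtain ⟨κ1, h1⟩ := hC
  obtain ⟨κ2, h2⟩ := hD
  -- align at the vertex with role `u`
  obtain ⟨σ, hσ⟩ : ∃ σ : Equiv.Perm (Fin r), ∀ z ∈ S, φ z = u → κ1 z = σ (κ2 z) := by
    by_cases hz : ∃ z ∈ S, φ z = u
    · obtain ⟨z, hz, hzu⟩ := hz
      refine ⟨Equiv.swap (κ2 z) (κ1 z), ?_⟩
      intro z' hz' hzu'
      have : z' = z := hinj z' hz' z hz (hzu'.trans hzu.symm)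
      subst this
      exact (Equiv.swap_apply_left _ _).symm
    · exact ⟨Equiv.refl _, fun z hz' hzu => absurd ⟨z, hz', hzu⟩ hz⟩
  apply hbad
  refine ⟨fun c => if φ c ≠ u ∧ ¬ Lnk L φ u a c then σ (κ2 c) else κ1 c, ?_⟩
  intro c hc d hd hcd
  -- the cases
  have hbC : ∀ c, (φ c = u ∨ Lnk L φ u a c) → c ≠ b := by
    rintro c hc rfl
    rcases hc with hc | hc
    · exact hub hc
    · exact hn hc
  have haD : ∀ c, (φ c = u ∨ ¬ Lnk L φ u a c) → c ≠ a := by
    rintro c hc rfl
    rcases hc with hc | hc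
    · exact hua hc
    · exact hc (Lnk.refl _)
  by_cases hcs : φ c ≠ u ∧ ¬ Lnk L φ u a c <;> by_cases hds : φ d ≠ u ∧ ¬ Lnk L φ u a d
  · simp only [hcs, hds, ne_eq, not_false_eq_true, and_self, if_true]
    intro h
    exact h2 c (Finset.mem_erase.2 ⟨haD c (Or.inr hcs.2), hc⟩) d
      (Finset.mem_erase.2 ⟨haD d (Or.inr hds.2), hd⟩) hcd (σ.injective h)
  · have hdu : φ d = u := by
      by_contra hdu
      have : Lnk L φ u a d := by
        by_contra h
        exact hds ⟨hdu, h⟩
      exact hcs.2 (this.trans (Lnk.edge hcd.symm hdu hcs.1))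
    simp only [if_pos hcs, if_neg hds]
    rw [hσ d hd hdu]
    intro h
    exact h2 c (Finset.mem_erase.2 ⟨haD c (Or.inr hcs.2), hc⟩) d
      (Finset.mem_erase.2 ⟨haD d (Or.inl hdu), hd⟩) hcd (σ.injective h)
  · have hcu : φ c = u := by
      by_contra hcu
      have : Lnk L φ u a c := by
        by_contra h
        exact hcs ⟨hcu, h⟩
      exact hds.2 (this.trans (Lnk.edge hcd hcu hds.1))
    simp only [if_neg hcs, if_pos hds]
    rw [hσ c hc hcu]
    intro h
    exact h2 c (Finset.mem_erase.2 ⟨haD c (Or.inl hcu), hc⟩) d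
      (Finset.mem_erase.2 ⟨haD d (Or.inr hds.2), hd⟩) hcd (σ.injective h)
  · simp only [if_neg hcs, if_neg hds]
    have hc' : φ c = u ∨ Lnk L φ u a c := by
      by_contra h
      push Not at h
      exact hcs h
    have hd' : φ d = u ∨ Lnk L φ u a d := by
      by_contra h
      push Not at h
      exact hds h
    exact h1 c (Finset.mem_erase.2 ⟨hbC c hc', hc⟩) d (Finset.mem_erase.2 ⟨hbC d hd', hd⟩) hcd

/-- `L` is rigid: all of `L` is reached from the bad `m`-sets. -/
def Rigid (L : SimpleGraph V) (r m : ℕ) : Prop := Rig L (BadM L r m) Set.univ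

/-- A rigid graph folds into `R` only if it is a subgraph of `R`. -/
theorem rigid_folds {r m : ℕ} (hR : Nst R r m) (hL : Rigid L r m) (h : Folds L R) : Sub L R := by
  obtain ⟨φ, hF⟩ := h
  have hb : Bdy L φ Set.univ := hL.bdy hF fun A hA => bdy_bad hF hR hA
  exact ⟨φ, fun a b hab => hb.inj hF (Set.mem_univ a) (Set.mem_univ b) hab, hF.1⟩

/-- TW2: a rigid graph is a subgraph of `Γ_M(R)` only if it is a subgraph of `R`. -/
theorem rigid_gam {r m M : ℕ} (hR : Nst R r m) (hL : Rigid L r m) (h : Sub L (Gam R M)) :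
    Sub L R :=
  rigid_folds hR hL (folds_of_gam h)

/-- Folding is monotone in `R`. -/
theorem Folds.mono {W' : Type v} {R' : SimpleGraph W'} (h : Folds L R) (hs : Sub R R') :
    Folds L R' := by
  obtain ⟨φ, h1, h2⟩ := h
  obtain ⟨F, hF, hA⟩ := hs
  refine ⟨fun a => F (φ a), fun a b hab => hA _ _ (h1 a b hab), ?_⟩
  intro a b hab he
  obtain ⟨u, hu, hn⟩ := h2 a b hab (hF he)
  refine ⟨F u, fun h => hu (hF h), fun hl => hn ?_⟩
  clear hn he hab
  induction hl with
  | refl => exact Lnk.refl _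
  | tail _ h3 ih =>
    exact ih.trans (Lnk.edge h3.1 (fun h => h3.2.1 (congrArg F h)) fun h => h3.2.2 (congrArg F h))

/-- Folding is antitone in `L`. -/
theorem Folds.anti {V' : Type u} {L' : SimpleGraph V'} (h : Folds L R) (hs : Sub L' L) :
    Folds L' R := by
  obtain ⟨φ, h1, h2⟩ := h
  obtain ⟨F, hF, hA⟩ := hs
  refine ⟨fun a => φ (F a), fun a b hab => h1 _ _ (hA a b hab), ?_⟩
  intro a b hab he
  obtain ⟨u, hu, hn⟩ := h2 (F a) (F b) (fun h => hab (hF h)) he
  refine ⟨u, hu, fun hl => hn ?_⟩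
  clear hn he hab
  induction hl with
  | refl => exact Lnk.refl _
  | tail _ h3 ih => exact ih.trans (Lnk.edge (hA _ _ h3.1) h3.2.1 h3.2.2)

/-- A subgraph of `R` folds into `R`. -/
theorem Folds.of_sub (h : Sub L R) : Folds L R := by
  obtain ⟨F, hF, hA⟩ := h
  exact ⟨F, hA, fun a b hab he => absurd (hF he) hab⟩

end rig

end MP3240TW
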